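import Pool.Agent.W981.Sym.Stm

/-!
# SYM-J: finitely many sets `J`
-/

set_option autoImplicit false

namespace Pool.Agent.W973.SYM

open Pool.Agent.W981.Hyp Pool.Agent.W981.Sym Module Matrix

universe u v w x

/-- a small subfamily which spans modulo `A` -/
theorem greedy {F V ι : Type*} [Field F] [AddCommGroup V] [Module F V] [FiniteDimensional F V]
    (R : ι → V) (τ : ℕ) : ∀ A : Submodule F V,
    finrank F (A ⊔ Submodule.span F (Set.range R) : Submodule F V) ≤ finrank F A + τ →
    ∃ J : Finset ι, J.card ≤ τ ∧ ∀ i, R i ∈ A ⊔ Submodule.span F (R '' J) := by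
  classical
  induction τ with
  | zero =>
    intro A h
    refine ⟨∅, le_rfl, fun i => ?_⟩
    have h1 : A = A ⊔ Submodule.span F (Set.range R) :=
      Submodule.eq_of_le_of_finrank_le le_sup_left (by simpa using h)
    have h2 : R i ∈ A := by
      rw [h1]
      exact Submodule.mem_sup_right (Submodule.subset_span ⟨i, rfl⟩)
    exact Submodule.mem_sup_left h2
  | succ τ ih =>
    intro A h
    by_cases hA : ∀ i, R i ∈ A
    · exact ⟨∅, Nat.zero_le _, fun i => Submodule.mem_sup_left (hA i)⟩
    · push Not at hA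
      obtain ⟨i₀, hi₀⟩ := hA
      set A' := A ⊔ Submodule.span F {R i₀} with hA'
      have hlt : A < A' := by
        refine lt_of_le_of_ne le_sup_left fun he => hi₀ ?_
        rw [he, hA']
        exact Submodule.mem_sup_right (Submodule.mem_span_singleton_self _)
      have h1 : finrank F A < finrank F A' := Submodule.finrank_lt_finrank_of_lt hlt
      have h2 : A' ⊔ Submodule.span F (Set.range R) = A ⊔ Submodule.span F (Set.range R) := by
        rw [hA', sup_assoc]
        congr 1
        refine sup_eq_right.2 ?_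
        rw [Submodule.span_singleton_le_iff_mem]
        exact Submodule.subset_span ⟨i₀, rfl⟩
      obtain ⟨J, hJ, hR⟩ := ih A' (by rw [h2]; omega)
      refine ⟨insert i₀ J, (Finset.card_insert_le _ _).trans (by omega), fun i => ?_⟩
      have h3 : A' ⊔ Submodule.span F (R '' J) ≤
          A ⊔ Submodule.span F (R '' ((insert i₀ J : Finset ι) : Set ι)) := by
        refine sup_le (sup_le le_sup_left ?_) ?_
        · rw [Submodule.span_singleton_le_iff_mem]
          refine Submodule.mem_sup_right (Submodule.subset_span ⟨i₀, ?_, rfl⟩)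
          simp
        · refine (Submodule.span_mono (Set.image_mono ?_)).trans le_sup_right
          intro j hj
          simp only [Finset.coe_insert]
          exact Set.mem_insert_of_mem _ hj
      exact h3 (hR i)

theorem jarg : S_JARG.{u, v, w, x} := by
  classical
  intro K F n ι ω _ _ _ _ _ _ _ Z p q H0 τ ψ hψ hτ
  set R : (n → F) → ι → n → F := fun z i =>
    (up F (q i) ⬝ᵥ z) • up F (p i) + (up F (p i) ⬝ᵥ z) • up F (q i) with hR
  set H : Finset ι → Submodule K (n → K) := fun J =>
    H0 ⊔ Submodule.span K (((J.image p ∪ J.image q : Finset (n → K))) : Set (n → K)) with hH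
  -- the matrices
  set C : ι → Matrix n n K := fun i => vecMulVec (p i) (q i) + vecMulVec (q i) (p i) with hC
  have hCK : ∀ i (y : n → K), C i *ᵥ y = (q i ⬝ᵥ y) • p i + (p i ⬝ᵥ y) • q i := by
    intro i y
    rw [hC]
    simp only [add_mulVec, vecMulVec_mulVec, op_smul_eq_smul]
  have hup : ∀ (a b : n → K), (vecMulVec a b).map (algebraMap K F) =
      vecMulVec (up F a) (up F b) := by
    intro a b
    ext i j
    simp [vecMulVec_apply, up]
  have hCF : ∀ i (z : n → F), (C i).map (algebraMap K F) *ᵥ z = R z i := by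
    intro i z
    have : (C i).map (algebraMap K F) = vecMulVec (up F (p i)) (up F (q i)) +
        vecMulVec (up F (q i)) (up F (p i)) := by
      rw [hC]
      simp only
      rw [Matrix.map_add _ (map_add _), hup, hup]
    rw [this]
    simp only [add_mulVec, vecMulVec_mulVec, op_smul_eq_smul, hR]
  have hpH : ∀ (J : Finset ι), ∀ j ∈ J, up F (p j) ∈ ext F (H J) := fun J j hj =>
    up_mem (Submodule.mem_sup_right (Submodule.subset_span (by
      simp only [Finset.coe_union, Finset.coe_image]
      exact Or.inl ⟨j, hj, rfl⟩)))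
  have hqH : ∀ (J : Finset ι), ∀ j ∈ J, up F (q j) ∈ ext F (H J) := fun J j hj =>
    up_mem (Submodule.mem_sup_right (Submodule.subset_span (by
      simp only [Finset.coe_union, Finset.coe_image]
      exact Or.inr ⟨j, hj, rfl⟩)))
  -- the subspaces `Z_J`
  set ZJ : Finset ι → Submodule F (n → F) := fun J =>
    ⨅ i, (ext F (H J)).comap ((C i).map (algebraMap K F)).mulVecLin with hZJ
  have hmem : ∀ J z, z ∈ ZJ J ↔ ∀ i, R z i ∈ ext F (H J) := by
    intro J z
    simp only [hZJ, Submodule.mem_iInf, Submodule.mem_comap, mulVecLin_apply, hCF]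
  -- step 1
  have step1 : ∀ z ∈ Z, (∀ j, ψ j z ≠ 0) → ∃ J : Finset ι, J.card ≤ τ ∧ z ∈ ZJ J := by
    intro z hz hz0
    have h1 := hτ z hz hz0
    rw [← finrank_ext (F := F) H0] at h1
    obtain ⟨J, hJ, h2⟩ := greedy (R z) τ (ext F H0) h1
    refine ⟨J, hJ, (hmem J z).2 fun i => ?_⟩
    have h3 : ext F H0 ⊔ Submodule.span F (R z '' J) ≤ ext F (H J) := by
      refine sup_le (ext_mono le_sup_left) ?_
      rw [Submodule.span_le]
      rintro _ ⟨j, hj, rfl⟩
      exact Submodule.add_mem _ (Submodule.smul_mem _ _ (hpH J j hj))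
        (Submodule.smul_mem _ _ (hqH J j hj))
    exact h3 (h2 i)
  -- step 2
  have step2 : ∃ J : Finset ι, J.card ≤ τ ∧ Z ≤ ZJ J := by
    let P : {J : Finset ι // J.card ≤ τ} ⊕ ω → Submodule F Z := fun a =>
      match a with
      | Sum.inl J => (ZJ J.1).comap Z.subtype
      | Sum.inr j => LinearMap.ker ((ψ j).comp Z.subtype)
    have hcov : ⋃ a, (P a : Set Z) = Set.univ := by
      rw [Set.eq_univ_iff_forall]
      intro z
      rw [Set.mem_iUnion]
      by_cases h : ∀ j, ψ j z ≠ 0
      · obtain ⟨J, hJ, hzJ⟩ := step1 z z.2 h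
        exact ⟨Sum.inl ⟨J, hJ⟩, hzJ⟩
      · push Not at h
        obtain ⟨j, hj⟩ := h
        exact ⟨Sum.inr j, hj⟩
    obtain ⟨a, ha⟩ := Subspace.exists_eq_top_of_iUnion_eq_univ hcov
    rcases a with J | j
    · refine ⟨J.1, J.2, fun z hz => ?_⟩
      have h1 : (⟨z, hz⟩ : Z) ∈ P (Sum.inl J) := by rw [ha]; exact Submodule.mem_top
      exact h1
    · exfalso
      obtain ⟨z, hz, hz0⟩ := hψ j
      have h1 : (⟨z, hz⟩ : Z) ∈ P (Sum.inr j) := by rw [ha]; exact Submodule.mem_top
      exact hz0 h1
  obtain ⟨J, hJ, hZ⟩ := step2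
  refine ⟨H J, le_sup_left, ?_, fun i y hy => ?_⟩
  · have h1 : finrank K (Submodule.span K
        (((J.image p ∪ J.image q : Finset (n → K))) : Set (n → K))) ≤ 2 * τ := by
      refine (finrank_span_finset_le_card _).trans ?_
      have h2 := Finset.card_union_le (J.image p) (J.image q)
      have h3 := Finset.card_image_le (s := J) (f := p)
      have h4 := Finset.card_image_le (s := J) (f := q)
      omega
    have h2 := Submodule.finrank_add_le_finrank_add_finrank H0 (Submodule.span K
        (((J.image p ∪ J.image q : Finset (n → K))) : Set (n → K)))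
    show finrank K (H0 ⊔ Submodule.span K
      (((J.image p ∪ J.image q : Finset (n → K))) : Set (n → K)) : Submodule K (n → K)) ≤ _
    omega
  · have h1 : hull K Z ≤ (H J).comap (C i).mulVecLin := by
      refine hull_le fun z hz => mem_ext_comap ?_
      rw [hCF]
      exact (hmem J z).1 (hZ hz) i
    have h2 := h1 hy
    rw [Submodule.mem_comap, mulVecLin_apply, hCK] at h2
    exact h2

end Pool.Agent.W973.SYM
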